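import Pool.Agent.TH29.DL.Main

/-!
# Every convex body in space has a double lattice packing of density at least `1/3`

`DoublePacks A v b`: all the bodies `A + u`, `v - A + u`, `u` in the lattice generated by `b`, have
pairwise disjoint interiors. `dens (A ∪ refl v A) b` is the upper density, as defined in the
problem, of the packing `{(A ∪ (v - A)) + u}`, and `deltaLStar A` (`δ_{L*}(A)` of the problem) is
the supremum of these densities.
-/

namespace Pool.Agent.Results.MP_3d065d_co.DoubleLatticeOneThird

open Pool.Agent.TH29.DL
open Pool.Agent.H349R2.Tet (V dens)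

theorem result : ∀ A : Set V, Convex ℝ A → IsCompact A → (interior A).Nonempty →
    (∃ (v : V) (b : Fin 3 → V), DoublePacks A v b ∧ 1 / 3 ≤ dens (A ∪ refl v A) b) ∧
    1 / 3 ≤ deltaLStar A :=
  fun _ hA hAc hAi => ⟨exists_dens_ge hA hAc hAi, deltaLStar_ge hA hAc hAi⟩

end Pool.Agent.Results.MP_3d065d_co.DoubleLatticeOneThird
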