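import Pool.Agent.TH219.DL.Bridge

/-!
# Every convex body in space has a lattice packing of density at least `2/9`
-/

namespace Pool.Agent.Results.MP_3d065d_co.LatticeTwoNinths

open Pool.Agent.TH219.DL

theorem result (K : Set (Fin 3 → ℝ)) (hK : Body K) :
    ENNReal.ofReal (2 / 9) ≤ dL K ∧ dL K ≤ dT K :=
  ⟨dL_low hK, dL_le_dT K⟩

end Pool.Agent.Results.MP_3d065d_co.LatticeTwoNinths
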