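import Pool.Agent.TH219.DL.TUp

/-!
# Reflected copies raise the smallest packing density in space

Every convex body `K` in `ℝ³` has a packing by the sets `K + u` and `v - K + u`, `u` in a lattice,
of density at least `0.412`.  Hence the minima of the four density functions satisfy
`m_L ≤ m_T ≤ 2/5 < 0.412 ≤ m_{L*} ≤ m_{T*}`.
-/

namespace Pool.Agent.Results.MP_3d065d_co.ReflectedCopies

open Pool.Agent.TH219.DL

theorem result :
    (∀ K : Set (Fin 3 → ℝ), Body K → ENNReal.ofReal 0.412 ≤ dLs K ∧ dLs K ≤ dTs K) ∧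
    mn dL ≤ mn dT ∧ mn dT ≤ ENNReal.ofReal (2 / 5) ∧ ENNReal.ofReal 0.412 ≤ mn dLs ∧
    mn dLs ≤ mn dTs := by
  refine ⟨fun K hK => ⟨dLs_low hK, dLs_le_dTs K⟩, ?_, ?_, ?_, ?_⟩
  · exact iInf₂_mono fun K _ => dL_le_dT K
  · exact (iInf₂_le Pool.Agent.H349R2.Tet.T T_body).trans dT_T
  · exact le_iInf₂ fun K hK => dLs_low hK
  · exact iInf₂_mono fun K _ => dLs_le_dTs K

end Pool.Agent.Results.MP_3d065d_co.ReflectedCopies
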